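import Pool.Agent.helper49.SP.SpecAS

/-!
# Project sp, part AS, module B1: `PS i` is monotone and subadditive
-/

namespace TP

open DP MeasureTheory

theorem B1_mono (i : ℕ) (A B : Set V → Prop) (h : ∀ X, A X → B X) : PS i A ≤ PS i B := by
  unfold PS PSF
  refine Finset.sum_le_sum fun T _ => ?_
  by_cases hA : A (T : Set V)
  · rw [if_pos hA, if_pos (h _ hA)]
  · rw [if_neg hA]
    split_ifs
    · exact sq_nonneg _
    · exact le_rfl

theorem B1_nonneg (i : ℕ) (A : Set V → Prop) : 0 ≤ PS i A := by
  unfold PS PSF
  refine Finset.sum_nonneg fun T _ => ?_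
  split_ifs
  · exact sq_nonneg _
  · exact le_rfl

open Classical in
theorem B1 : B1_stmt := by
  intro hPAR i
  refine ⟨B1_mono i, fun A B => ?_, fun A => ⟨B1_nonneg i A, ?_⟩, fun A => ?_, fun ι s A => ?_⟩
  · unfold PS PSF
    rw [← Finset.sum_add_distrib]
    refine Finset.sum_le_sum fun T _ => ?_
    have h0 : 0 ≤ fh (Fc i) T ^ 2 := sq_nonneg _
    by_cases hA : A (T : Set V)
    · rw [if_pos (Or.inl hA), if_pos hA]
      split_ifs <;> linarith
    · by_cases hB : B (T : Set V)
      · rw [if_pos (Or.inr hB), if_neg hA, if_pos hB]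
        linarith
      · rw [if_neg (by tauto), if_neg hA, if_neg hB]
        linarith
  · rw [← hPAR i]
    exact B1_mono i _ _ fun _ _ => trivial
  · have h : PS i (fun X => ¬ A X) + PS i A = 1 := by
      rw [← hPAR i]
      unfold PS PSF
      rw [← Finset.sum_add_distrib]
      refine Finset.sum_congr rfl fun T _ => ?_
      by_cases hA : A (T : Set V)
      · rw [if_neg (not_not.2 hA), if_pos hA, if_pos trivial, zero_add]
      · rw [if_pos hA, if_neg hA, if_pos trivial, add_zero]
    linarith
  · unfold PS PSF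
    rw [Finset.sum_comm]
    refine Finset.sum_le_sum fun T _ => ?_
    have h0 : 0 ≤ fh (Fc i) T ^ 2 := sq_nonneg _
    by_cases hA : ∃ j ∈ s, A j (T : Set V)
    · rw [if_pos hA]
      obtain ⟨j, hj, hjA⟩ := hA
      calc fh (Fc i) T ^ 2 = if A j (T : Set V) then fh (Fc i) T ^ 2 else 0 := (if_pos hjA).symm
        _ ≤ _ := by
          refine Finset.single_le_sum (f := fun j => if A j (T : Set V) then fh (Fc i) T ^ 2 else 0)
            (fun k _ => ?_) hj
          split_ifs
          · exact h0
          · exact le_rfl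
    · rw [if_neg hA]
      refine Finset.sum_nonneg fun k _ => ?_
      split_ifs
      · exact h0
      · exact le_rfl

end TP

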