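import Pool.Agent.helper31.SP.SpecTL

/-!
# Project sp, part TL, module TL6: noisy one-point function
-/

namespace TP

open DP MeasureTheory

theorem TL6 (hTL5 : TL5_stmt) (hAM : DP.AM_stmt) (hmono : DP.Bmono_stmt) (hanti : Banti_stmt)
    (hTRQ : TRQ_stmt) (hUI5 : UI5_stmt) : TL6_stmt := by
  intro m₀ i k v ρ s hm hik hv hρ hs0 hs1 hsρ
  have hbulk : Bulk i k v := by
    classical
    have h := hv
    unfold BF at h
    simp only [Finset.mem_filter] at h
    exact h.2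
  set R := 2 ^ (i - k - 1) with hR
  have hR2 : R * 2 = 2 ^ (i - k) := by
    rw [hR, ← pow_succ]
    congr 1
    omega
  have hmR : 2 ^ m₀ * 2 ≤ R := by
    rw [hR, ← pow_succ]
    exact Nat.pow_le_pow_right (by norm_num) (by omega)
  have h4 : 4 ≤ 2 ^ m₀ := by
    calc 4 = 2 ^ 2 := by norm_num
      _ ≤ 2 ^ m₀ := Nat.pow_le_pow_right (by norm_num) hm
  have hevp1 : (evp v).1 % 2 = 0 ∧ (evp v).2 % 2 = 0 := by
    unfold evp; constructor <;> simp only <;> omega
  have hsub : Piv {v} (Fc i) ⊆ Ev fun c => ar 4 c (evp v) (2 ^ m₀) R := by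
    intro b hb
    have h1 := hTL5 i b {v} (evp v) 1 R (by
      intro w hw
      rw [Set.mem_singleton_iff] at hw
      subst hw
      show sd (evp w) w ≤ 1
      unfold sd evp
      simp only
      omega) (by omega) (by
      refine Set.Subset.trans (fun w hw => ?_) hbulk
      have hw' : sd (evp v) w ≤ R := hw
      show sd v w ≤ 2 ^ (i - k)
      rw [← hR2]
      unfold sd evp at *
      simp only at *
      omega) hb
    have h2 : ar 4 (col b) (evp v) 3 R := by
      unfold ar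
      rw [if_pos rfl]
      exact h1
    exact hAM (col b) 4 (evp v) 3 (2 ^ m₀) R R (Or.inr rfl) (by omega) (by omega) le_rfl h2
  have hloc : Loc (Ev fun c => ar 4 c (evp v) (2 ^ m₀) R) (ann (evp v) (2 ^ m₀) R) := by
    have h := (hUI5 (evp v) (2 ^ m₀) R).1
    have e : (Ev fun c => ar 4 c (evp v) (2 ^ m₀) R) = Ev fun c => four c (evp v) (2 ^ m₀) R := by
      unfold ar
      simp
    rw [e]
    exact h
  calc Q ρ (Piv {v} (Fc i)) (Piv {v} (Fc i))
      ≤ Q ρ (Ev fun c => ar 4 c (evp v) (2 ^ m₀) R) (Ev fun c => ar 4 c (evp v) (2 ^ m₀) R) :=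
        hmono ρ _ _ _ _ hsub hsub
    _ ≤ Q (fun _ => s) (Ev fun c => ar 4 c (evp v) (2 ^ m₀) R)
          (Ev fun c => ar 4 c (evp v) (2 ^ m₀) R) :=
        hanti (fun _ => s) ρ _ _ (fun _ => ⟨hs0, hs1⟩) hρ hloc fun w _ => hsρ _
    _ = qa (fun _ => s) 4 (evp v) (2 ^ m₀) R := rfl
    _ = qa (fun _ => s) 4 0 (2 ^ m₀) R :=
        (hTRQ s 4 (evp v) (2 ^ m₀) R (Int.even_iff.2 hevp1.1) (Int.even_iff.2 hevp1.2)).1

end TP

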