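import Pool.Agent.helper52.SP.UJ5

set_option autoImplicit false

namespace TP

open DP MeasureTheory

theorem UJ6_finMul {g h : (V → Bool) → ℝ} (hg : FinR g) (hh : FinR h) :
    FinR fun b => g b * h b := by
  classical
  obtain ⟨A, hA⟩ := hg
  obtain ⟨B, hB⟩ := hh
  refine ⟨A ∪ B, fun b b' hb => ?_⟩
  show g b * h b = g b' * h b'
  rw [hA b b' fun v hv => hb v (by simpa using Or.inl (Finset.mem_coe.1 hv)),
    hB b b' fun v hv => hb v (by simpa using Or.inr (Finset.mem_coe.1 hv))]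

theorem UJ6_finComp {g : (V → Bool) → ℝ} (hg : FinR g) (φ : ℝ → ℝ) : FinR fun b => φ (g b) := by
  obtain ⟨A, hA⟩ := hg
  exact ⟨A, fun b b' hb => congrArg φ (hA b b' hb)⟩

theorem UJ6_sq {f : (V → Bool) → ℝ} (h1 : Integrable f P1) (h2 : Integrable (fun b => f b ^ 2) P1)
    (c : ℝ) : ∫ b, (f b - c) ^ 2 ∂P1 = ∫ b, f b ^ 2 ∂P1 - 2 * c * ∫ b, f b ∂P1 + c ^ 2 := by
  have h3 : Integrable (fun b => 2 * c * f b) P1 := h1.const_mul _
  have h4 : Integrable (fun b => f b ^ 2 - 2 * c * f b) P1 := h2.sub h3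
  have e : (fun b => (f b - c) ^ 2) = fun b => (f b ^ 2 - 2 * c * f b) + c ^ 2 := by
    funext b
    ring
  rw [e, integral_add h4 (integrable_const _), integral_sub h2 h3, integral_const_mul,
    integral_const]
  simp only [probReal_univ, one_smul]

/-- The variance of the average over the coins in `A`. -/
theorem UJ6_var (A : Set V) (H : (V → Bool) → ℝ) (hH : FinR H) (b : V → Bool) :
    av A (fun b => (dl A H b) ^ 2) b = av A (fun b => H b ^ 2) b - (av A H b) ^ 2 := by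
  have e : ∀ b' : V → Bool, dl A H (mx A b b') = H (mx A b b') - av A H b := by
    intro b'
    unfold dl
    rw [UJ5.2.1 A H (mx A b b') b hH fun v hv => UJ5_mx_out hv]
  have h1 : Integrable (fun b' => H (mx A b b')) P1 := UJ5_int hH A b
  have h2 : Integrable (fun b' => H (mx A b b') ^ 2) P1 :=
    UJ5_int (UJ6_finComp hH fun x => x ^ 2) A b
  have h3 := UJ6_sq h1 h2 (av A H b)
  show ∫ b', (dl A H (mx A b b')) ^ 2 ∂P1 = ∫ b', H (mx A b b') ^ 2 ∂P1 - (av A H b) ^ 2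
  rw [funext fun b' => congrArg (fun x : ℝ => x ^ 2) (e b'), h3]
  show _ - 2 * av A H b * av A H b + _ = _
  ring

theorem UJ6_pt (A : Set V) (H w : (V → Bool) → ℝ) (d : Set (V → Bool)) (Λ : Finset V)
    (hH : FinR H) (hd : DP.Dep d (Λ : Set V)) (hw : ∀ b, 0 ≤ w b ∧ w b ≤ 1)
    (hwA : ∀ b b' : V → Bool, (∀ v, v ∉ A → b v = b' v) → w b = w b')
    (h0 : ∀ b, 0 < w b → b ∉ d → H b = 0)
    (h1 : ∀ b b' : V → Bool, (∀ v, v ∉ A → b v = b' v) → 0 < w b → b ∈ d → b' ∈ d → H b = H b')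
    (hp : ∀ b, w b ≤ Pr {b' | mx A b b' ∈ d}) (b : V → Bool) :
    av A (fun b => (dl A H b) ^ 2) b ≤ (1 - w b) * av A (fun b => H b ^ 2) b := by
  rw [UJ6_var A H hH b]
  suffices h : w b * av A (fun b => H b ^ 2) b ≤ (av A H b) ^ 2 by linarith
  rcases (hw b).1.eq_or_lt with hz | hpos
  · rw [← hz, zero_mul]
    positivity
  have hwm : ∀ b' : V → Bool, 0 < w (mx A b b') := fun b' => by
    rw [hwA (mx A b b') b fun v hv => UJ5_mx_out hv]
    exact hpos
  obtain ⟨r, hr⟩ : ∃ r : ℝ, ∀ b', mx A b b' ∈ d → H (mx A b b') = r := by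
    by_cases hex : ∃ b₀, mx A b b₀ ∈ d
    · obtain ⟨b₀, hb₀⟩ := hex
      refine ⟨H (mx A b b₀), fun b' hb' => h1 _ _ (fun v hv => ?_) (hwm b') hb' hb₀⟩
      rw [UJ5_mx_out hv, UJ5_mx_out hv]
    · exact ⟨0, fun b' hb' => (hex ⟨b', hb'⟩).elim⟩
  have hdep : DP.Dep {b' | mx A b b' ∈ d} (Λ : Set V) := by
    intro b' b'' hb
    refine hd _ _ fun v hv => ?_
    by_cases hU : v ∈ A
    · rw [UJ5_mx_in hU, UJ5_mx_in hU]; exact hb v hv
    · rw [UJ5_mx_out hU, UJ5_mx_out hU]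
  have hS : MeasurableSet {b' | mx A b b' ∈ d} := hdep.measurableSet
  have e1 : (fun b' => H (mx A b b')) = Set.indicator {b' | mx A b b' ∈ d} fun _ => r := by
    funext b'
    by_cases hb' : mx A b b' ∈ d
    · rw [Set.indicator_of_mem (by exact hb'), hr b' hb']
    · rw [Set.indicator_of_notMem (by exact hb'), h0 _ (hwm b') hb']
  have e2 : (fun b' => H (mx A b b') ^ 2) =
      Set.indicator {b' | mx A b b' ∈ d} fun _ => r ^ 2 := by
    funext b'
    by_cases hb' : mx A b b' ∈ d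
    · rw [Set.indicator_of_mem (by exact hb'), hr b' hb']
    · rw [Set.indicator_of_notMem (by exact hb'), h0 _ (hwm b') hb']
      norm_num
  have i1 : av A H b = Pr {b' | mx A b b' ∈ d} * r := by
    unfold av Pr
    rw [e1, integral_indicator_const _ hS, smul_eq_mul]
  have i2 : av A (fun b => H b ^ 2) b = Pr {b' | mx A b b' ∈ d} * r ^ 2 := by
    unfold av Pr
    rw [e2, integral_indicator_const _ hS, smul_eq_mul]
  rw [i1, i2]
  have hP : 0 ≤ Pr {b' | mx A b b' ∈ d} := measureReal_nonneg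
  calc w b * (Pr {b' | mx A b b' ∈ d} * r ^ 2)
      ≤ Pr {b' | mx A b b' ∈ d} * (Pr {b' | mx A b b' ∈ d} * r ^ 2) :=
        mul_le_mul_of_nonneg_right (hp b) (by positivity)
    _ = (Pr {b' | mx A b b' ∈ d} * r) ^ 2 := by ring

theorem UJ6 : UJ6_stmt := by
  intro A H Z w d Λ hH hZ hw hd hZ0 hw01 hinv h0 h1 hp
  have f1 : FinR fun b => (dl A H b) ^ 2 := UJ6_finComp (UJ5.1 A H hH).2.1 fun x => x ^ 2
  have f2 : FinR fun b => H b ^ 2 := UJ6_finComp hH fun x => x ^ 2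
  have f3 : FinR fun b => Z b * (1 - w b) := UJ6_finMul hZ (UJ6_finComp hw fun x => 1 - x)
  have g1 : FinR fun b => Z b * (dl A H b) ^ 2 := UJ6_finMul hZ f1
  have g2 : FinR fun b => Z b * (1 - w b) * H b ^ 2 := UJ6_finMul f3 f2
  rw [← (UJ5.1 A _ g1).2.2.2, ← (UJ5.1 A _ g2).2.2.2]
  refine integral_mono (UJ5.1 ∅ _ (UJ5.1 A _ g1).1).2.2.1 (UJ5.1 ∅ _ (UJ5.1 A _ g2).1).2.2.1
    fun b => ?_
  show av A (fun b => Z b * (dl A H b) ^ 2) b ≤ av A (fun b => Z b * (1 - w b) * H b ^ 2) b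
  rw [UJ5.2.2.2.1 A _ Z f1 hZ (fun b b' hb => (hinv b b' hb).1) b,
    UJ5.2.2.2.1 A _ (fun b => Z b * (1 - w b)) f2 f3 (fun b b' hb => by
      show Z b * (1 - w b) = Z b' * (1 - w b')
      rw [(hinv b b' hb).1, (hinv b b' hb).2]) b]
  have := UJ6_pt A H w d Λ hH hd hw01 (fun b b' hb => (hinv b b' hb).2) h0 h1 hp b
  calc Z b * av A (fun b => (dl A H b) ^ 2) b
      ≤ Z b * ((1 - w b) * av A (fun b => H b ^ 2) b) := mul_le_mul_of_nonneg_left this (hZ0 b)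
    _ = Z b * (1 - w b) * av A (fun b => H b ^ 2) b := by ring

end TP
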